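import Pool.Agent.T9h44.NK.SpecA

/-!
# The graph of a polytope is connected (piece CONN)
-/

set_option autoImplicit false

open Set
open scoped RealInnerProductSpace

namespace Pool.Agent.T9h66.NK

open Pool.Agent.T9h98.DC Pool.Agent.T9h44.NK

theorem vx_mem {d : ℕ} {P : Set (E d)} {v : E d} (h : Vx P v) : v ∈ P := by
  obtain ⟨a, ha⟩ := h.2 h.1
  have : v ∈ ({v} : Set (E d)) := rfl
  rw [ha] at this
  exact this.1

/-- **CONN** -/
theorem conn (hF : S_FACES) (hC : S_CONE) : S_CONN := by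
  intro d P hP A hA hcl w hw
  obtain ⟨-, -, hfin, -, -, -, -, -, hadj, -⟩ := hF (d + 1) P hP.1
  by_contra hwA
  obtain ⟨a, ha⟩ := hw.2 hw.1
  have hfin' : {v | Vx P v ∧ v ∈ A}.Finite := hfin.subset fun v hv => hv.1
  have hne : {v | Vx P v ∧ v ∈ A}.Nonempty := by
    obtain ⟨v, h1, h2⟩ := hA
    exact ⟨v, h2, h1⟩
  obtain ⟨v, hv, hmax⟩ := hfin'.exists_maximalFor (fun v => a v) _ hne
  have hvP : v ∈ P := vx_mem hv.1
  have hww : w ∈ ({w} : Set (E (d + 1))) := rfl
  rw [ha] at hww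
  have hlt : a v < a w := by
    refine lt_of_le_of_ne (hww.2 v hvP) fun heq => ?_
    have : v ∈ ({w} : Set (E (d + 1))) := by
      rw [ha]
      exact ⟨hvP, fun y hy => by rw [heq]; exact hww.2 y hy⟩
    rw [mem_singleton_iff] at this
    rw [this] at hv
    exact hwA hv.2
  obtain ⟨S, c, hS, hsum⟩ := hC d P v hP hv.1 w hww.1
  have hpos : 0 < ∑ y ∈ S, c y * (a y - a v) := by
    have h1 : a (w - v) = ∑ y ∈ S, c y * (a y - a v) := by
      rw [hsum, map_sum]
      refine Finset.sum_congr rfl fun y _ => ?_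
      rw [map_smul, map_sub, smul_eq_mul]
    rw [← h1, map_sub]
    linarith
  obtain ⟨y, hy, hypos⟩ := Finset.exists_lt_of_sum_lt (by simpa using hpos :
    ∑ y ∈ S, (0 : ℝ) < ∑ y ∈ S, c y * (a y - a v))
  have hlt' : a v < a y := by
    by_contra hn
    have : c y * (a y - a v) ≤ 0 :=
      mul_nonpos_of_nonneg_of_nonpos (hS y hy).2 (by linarith [not_lt.mp hn])
    linarith
  have hyA : Vx P y ∧ y ∈ A := ⟨(hadj v y (hS y hy).1).2.1, hcl v hv.2 y hv.1 (hS y hy).1⟩
  have := hmax hyA hlt'.le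
  linarith

end Pool.Agent.T9h66.NK
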