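import Pool.Agent.T9h44.NK.SpecA
import Pool.Agent.T9h44.NK.SpecB

/-!
# All angles are `60°` (piece SS2)
-/

set_option autoImplicit false

open Set
open scoped RealInnerProductSpace

namespace Pool.Agent.T9h66.NK

open Pool.Agent.T9h98.DC Pool.Agent.T9h44.NK

open Classical in
/-- **SS2** -/
theorem ss2 (hF : S_FACES) (hN : S_CONN) (hM : S_M3) : S_SS2 := by
  intro d P s κ hP hS hκ
  obtain ⟨hs, hdist, hcard, hface⟩ := hS
  obtain ⟨hFace, -, -, -, hne, -, -, -, hadj, -⟩ := hF (d + 5) P hP.1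
  have hPne : P.Nonempty := hP.2.mono interior_subset
  obtain ⟨hPP, v, hv⟩ := hne hPne
  have hnb : ∀ a y z, Adj P a y → Adj P a z → y ≠ z → Adj P y z := by
    intro a y z hy hz hyz
    obtain ⟨-, T, hT, hT2, haT, hyT, hzT⟩ := hface a y z hy hz hyz
    have h := hM (d + 4) P T s (1 / 2) hP hT hT2 hs (fun p q h _ _ => hdist p q h)
      (fun p q r h1 h2 h3 _ _ _ => by rw [(hface p q r h1 h2 h3).1, hκ p (hadj p q h1).1])
      a y z hy hz hyz haT hyT hzT
    rcases h with h | h | h
    · exact h.2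
    · norm_num at h
    · norm_num at h
  obtain ⟨X, hXc, hX⟩ := hcard v hv
  have hvX : v ∉ X := fun h => ((hX v).mp h).1 rfl
  obtain ⟨Y, hY⟩ : ∃ Y : Finset (E (d + 5)), Y = insert v X := ⟨_, rfl⟩
  have hYc : Y.card = d + 5 + 1 := by rw [hY, Finset.card_insert_of_notMem hvX, hXc]
  have hvY : v ∈ Y := by rw [hY]; exact Finset.mem_insert_self _ _
  have hpair : ∀ a ∈ Y, ∀ b ∈ Y, a ≠ b → Adj P a b := by
    intro a ha b hb hab
    rw [hY, Finset.mem_insert] at ha hb
    rcases ha with rfl | ha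
    · rcases hb with rfl | hb
      · exact absurd rfl hab
      · exact (hX b).mp hb
    · rcases hb with rfl | hb
      · exact (hadj b a ((hX a).mp ha)).2.2.1
      · exact hnb v a b ((hX a).mp ha) ((hX b).mp hb) hab
  have hclosed : ∀ a ∈ (Y : Set (E (d + 5))), ∀ w, Vx P a → Adj P a w →
      w ∈ (Y : Set (E (d + 5))) := by
    intro a ha w hva haw
    rw [Finset.mem_coe] at ha ⊢
    obtain ⟨Z, hZc, hZ⟩ := hcard a hva
    have hsub : Y.erase a ⊆ Z := fun b hb => (hZ b).mpr
      (hpair a ha b (Finset.mem_of_mem_erase hb) (Finset.ne_of_mem_erase hb).symm)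
    have heq : Y.erase a = Z := Finset.eq_of_subset_of_card_le hsub (by
      rw [hZc, Finset.card_erase_of_mem ha, hYc]
      omega)
    have : w ∈ Y.erase a := by rw [heq]; exact (hZ w).mpr haw
    exact Finset.mem_of_mem_erase this
  have hall := hN (d + 4) P hP (Y : Set (E (d + 5))) ⟨v, hvY, hv⟩ hclosed
  have hvert : {u | Vx P u ∧ u ∈ P} = (Y : Set (E (d + 5))) := by
    ext u
    constructor
    · rintro ⟨hu, -⟩
      exact hall u hu
    · intro hu
      rw [Finset.mem_coe] at hu
      have hVu : Vx P u := by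
        by_cases huv : v = u
        · rw [← huv]; exact hv
        · exact (hadj v u (hpair v hvY u hu huv)).2.1
      refine ⟨hVu, ?_⟩
      obtain ⟨a, ha⟩ := hVu.2 hVu.1
      have : u ∈ ({u} : Set (E (d + 5))) := rfl
      rw [ha] at this
      exact this.1
  refine ⟨fun i => ((Y.equivFinOfCardEq hYc).symm i : E (d + 5)), s, hs, ?_, ?_⟩
  · intro i j hij
    refine hdist _ _ (hpair _ (Subtype.prop _) _ (Subtype.prop _) fun h => hij ?_)
    exact (Y.equivFinOfCardEq hYc).symm.injective (Subtype.ext h)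
  · rw [(hFace P hPP).2, hvert]
    congr 1
    ext u
    constructor
    · intro hu
      exact ⟨Y.equivFinOfCardEq hYc ⟨u, hu⟩, by simp⟩
    · rintro ⟨i, rfl⟩
      exact Subtype.prop _

end Pool.Agent.T9h66.NK
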